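import Mathlib
import Pool.Agent.R107.HookMono2

namespace Pool.Agent.Results.MP_6996b5_co.Monotone

open Pool.Agent.R153.Hook2 (young hookLength hooks2)

/-- `h_k(λ)`: the number of cells of hook length `k` in the Young diagram of the partition `p`. -/
noncomputable def h (k : ℕ) {n : ℕ} (p : n.Partition) : ℕ :=
  ((young p).cells.filter (fun c => hookLength (young p) c = k)).card

/-- `𝓑_t(n)`: the `t`-regular partitions of `n`, none of whose parts is divisible by `t`. -/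
def B (t n : ℕ) : Finset n.Partition :=
  Finset.univ.filter (fun p => ∀ x ∈ p.parts, ¬ t ∣ x)

/-- `b_{t,k}(n)`, the total number of hooks of length `k` in the `t`-regular partitions of `n`. -/
noncomputable def b (t k n : ℕ) : ℕ := ∑ p ∈ B t n, h k p

open PowerSeries
open Pool.Agent.R107.HookMono
open Pool.Agent.R107.TruncTheta (R)
open Pool.Agent.R107.QT (geo one_sub_mul_geo R_split' R_eq_geo_mul)

lemma b_two (t n : ℕ) (ht : 2 ≤ t) : (b t 2 n : ℤ) = coeff n (cT t * R (fun x => ¬ t ∣ x)) := by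
  rw [← total_eq t n ht]
  unfold b
  push_cast
  apply Finset.sum_congr rfl
  intro p _
  rfl

lemma main (t : ℕ) (ht : 3 ≤ t) :
    NN (cT (t + 1) * R (fun x => ¬ (t + 1) ∣ x) - cT t * R (fun x => ¬ t ∣ x)) := by
  have hA : R (fun x => ¬ (t + 1) ∣ x) = R (pC t) * R (pA t) :=
    R_mul (pC t) (pA t) _ (fun n _ => by tauto) (fun n _ => by tauto)
  have hB : R (fun x => ¬ t ∣ x) = R (pC t) * R (pB t) :=
    R_mul (pC t) (pB t) _ (fun n _ => by tauto) (fun n _ => by tauto)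
  have hnd : ∀ m k : ℕ, 0 < k → k < m → ¬ m ∣ k := fun m k h0 h1 h2 => by
    have := Nat.le_of_dvd h0 h2
    omega
  have hC1 : R (pC t) = geo 1 * R (fun i => pC t i ∧ i ≠ 1) :=
    R_eq_geo_mul (pC t) 1 (by norm_num) ⟨hnd _ _ (by omega) (by omega), hnd _ _ (by omega) (by omega)⟩
  have hC2 : R (fun i => pC t i ∧ i ≠ 1) =
      geo (t - 1) * R (fun i => (pC t i ∧ i ≠ 1) ∧ i ≠ t - 1) :=
    R_eq_geo_mul _ (t - 1) (by omega) ⟨⟨hnd _ _ (by omega) (by omega),
      hnd _ _ (by omega) (by omega)⟩, by omega⟩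
  have hC3 : R (fun i => pC t i ∧ i ≠ 1) =
      geo 2 * R (fun i => (pC t i ∧ i ≠ 1) ∧ i ≠ 2) :=
    R_eq_geo_mul _ 2 (by omega) ⟨⟨hnd _ _ (by omega) (by omega),
      hnd _ _ (by omega) (by omega)⟩, by omega⟩
  have hC2' : (1 - X ^ (t - 1)) * R (fun i => pC t i ∧ i ≠ 1) =
      R (fun i => (pC t i ∧ i ≠ 1) ∧ i ≠ t - 1) :=
    R_split' _ (t - 1) (by omega) ⟨⟨hnd _ _ (by omega) (by omega),
      hnd _ _ (by omega) (by omega)⟩, by omega⟩
  have hcT := NN_cT (t + 1) (by omega)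
  rw [show t + 1 - 2 = t - 1 by omega] at hcT
  have hAB := NN_AB t (by omega)
  have hdiff := diff_eq t (by omega)
  have e : cT (t + 1) * R (fun x => ¬ (t + 1) ∣ x) - cT t * R (fun x => ¬ t ∣ x) =
      R (fun i => (pC t i ∧ i ≠ 1) ∧ i ≠ t - 1) * (geo (t - 1) * cT (t + 1)) *
        (geo 1 * (R (pA t) - R (pB t))) +
      R (pB t) * (R (fun i => pC t i ∧ i ≠ 1) * (geo 1 * (X ^ t * geo (2 * t) -
        X ^ (t + 1) * geo (2 * (t + 1))) - X ^ t * geo (2 * t)) +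
        X ^ t * geo (2 * t) * R (fun i => (pC t i ∧ i ≠ 1) ∧ i ≠ t - 1) +
        R (fun i => (pC t i ∧ i ≠ 1) ∧ i ≠ 2) * (geo 2 * (X ^ (2 * t) * geo (2 * t) -
          X ^ (2 * (t + 1)) * geo (2 * (t + 1)))) +
        R (fun i => pC t i ∧ i ≠ 1) * (X ^ (2 * t + 1) * geo (2 * (t + 1)))) := by
    have s1 : R (pC t) * (cT (t + 1) - cT t) =
        R (fun i => pC t i ∧ i ≠ 1) * (geo 1 * (cT (t + 1) - cT t)) := by
      rw [hC1]; ring
    rw [hdiff] at s1
    have s2 : R (pC t) * (cT (t + 1) * (R (pA t) - R (pB t))) =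
        R (fun i => (pC t i ∧ i ≠ 1) ∧ i ≠ t - 1) * (geo (t - 1) * cT (t + 1)) *
        (geo 1 * (R (pA t) - R (pB t))) := by
      rw [hC1]
      conv_lhs => rw [hC2]
      ring
    calc cT (t + 1) * R (fun x => ¬ (t + 1) ∣ x) - cT t * R (fun x => ¬ t ∣ x) =
        R (pC t) * (cT (t + 1) * (R (pA t) - R (pB t))) +
          R (pB t) * (R (pC t) * (cT (t + 1) - cT t)) := by rw [hA, hB]; ring
      _ = _ := by
        rw [s1, s2]
        have s3 : R (fun i => pC t i ∧ i ≠ 1) * (X ^ (2 * t) * geo (2 * t) -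
          X ^ (2 * (t + 1)) * geo (2 * (t + 1))) = R (fun i => (pC t i ∧ i ≠ 1) ∧ i ≠ 2) *
          (geo 2 * (X ^ (2 * t) * geo (2 * t) - X ^ (2 * (t + 1)) * geo (2 * (t + 1)))) := by
          rw [hC3]; ring
        rw [← s3, ← hC2']
        ring
  rw [e]
  have hX : ∀ u v : ℕ, NN (X ^ u * geo v) := fun u v => (NN_X_pow u).mul (NN_geo v)
  refine NN.add (((NN_R _).mul hcT).mul hAB) ((NN_R _).mul ?_)
  refine NN.add (NN.add (NN.add ((NN_R _).mul (NN_Z t (by omega))) ((hX _ _).mul (NN_R _)))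
    ((NN_R _).mul (NN_W t (by omega)))) ((NN_R _).mul (hX _ _))

/-- For every `t ≥ 3` and every `n`, `b_{t+1,2}(n) ≥ b_{t,2}(n)`. -/
theorem result (t : ℕ) (ht : 3 ≤ t) (n : ℕ) : b t 2 n ≤ b (t + 1) 2 n := by
  have h1 := main t ht n
  rw [map_sub, ← b_two t n (by omega), ← b_two (t + 1) n (by omega)] at h1
  omega

end Pool.Agent.Results.MP_6996b5_co.Monotone
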